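import Pool.Agent.W516.MTH.Stm
import Pool.Agent.W437.HD.Fixed

/-!
# MTH-SPAN: a matrix satisfying the homogeneous rational relations lies in the span
-/

set_option autoImplicit false

namespace Pool.Agent.W351.MTH

open Matrix Pool.Agent.W516.MTH

/-- the homogeneous parts of a relation are relations -/
theorem part {m : Type} [Fintype m] [DecidableEq m] (wt : m → ℕ) (G : Set (Matrix m m ℂ))
    (hμ : ∀ μ : ℂ, μ ≠ 0 → ∀ g ∈ G, g * diagonal (fun i => μ ^ wt i) ∈ G) (c : m × m → ℂ)
    (hc : ∀ g ∈ G, ∑ k, c k * g k.1 k.2 = 0) (n : ℕ) (g : Matrix m m ℂ) (hg : g ∈ G) :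
    ∑ k : m × m, (if wt k.2 = n then c k * g k.1 k.2 else 0) = 0 := by
  set P : Polynomial ℂ := ∑ k : m × m, Polynomial.monomial (wt k.2) (c k * g k.1 k.2) with hP
  have hroot : ∀ μ : ℂ, μ ≠ 0 → P.IsRoot μ := by
    intro μ hμ0
    have h1 := hc _ (hμ μ hμ0 g hg)
    rw [Polynomial.IsRoot.def, hP, Polynomial.eval_finsetSum]
    refine Eq.trans (Finset.sum_congr rfl fun k _ => ?_) h1
    rw [Polynomial.eval_monomial, Matrix.mul_diagonal]
    ring
  have hP0 : P = 0 := by
    apply Polynomial.eq_zero_of_infinite_isRoot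
    apply Set.Infinite.mono (s := {x : ℂ | x ≠ 0})
    · intro x hx
      exact hroot x hx
    · have h2 : {x : ℂ | x ≠ 0} = ({0} : Set ℂ)ᶜ := by
        ext x; simp
      rw [h2]
      exact (Set.finite_singleton (0 : ℂ)).infinite_compl
  have h3 : P.coeff n = 0 := by rw [hP0, Polynomial.coeff_zero]
  rw [hP, Polynomial.finsetSum_coeff] at h3
  refine Eq.trans (Finset.sum_congr rfl fun k _ => ?_) h3
  rw [Polynomial.coeff_monomial]

theorem T_SPAN : StSpan := by
  intro m _ _ wt G hσ hμ B hB
  by_contra hBS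
  obtain ⟨φ, hφB, hφS⟩ := Submodule.exists_le_ker_of_notMem hBS
  set γ : m × m → ℂ := fun k => φ (Matrix.single k.1 k.2 1) with hγ
  have hφ : ∀ A : Matrix m m ℂ, φ A = ∑ k : m × m, γ k * A k.1 k.2 := by
    intro A
    conv_lhs => rw [Matrix.matrix_eq_sum_single A]
    rw [map_sum, Fintype.sum_prod_type]
    refine Finset.sum_congr rfl fun i _ => ?_
    rw [map_sum]
    refine Finset.sum_congr rfl fun j _ => ?_
    have h1 : Matrix.single i j (A i j) = A i j • Matrix.single i j (1 : ℂ) := by
      rw [Matrix.smul_single, smul_eq_mul, mul_one]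
    rw [h1, map_smul, smul_eq_mul, mul_comm]
  let C : Submodule ℂ (m × m → ℂ) :=
    { carrier := {v | ∀ g ∈ G, ∑ k, v k * g k.1 k.2 = 0}
      add_mem' := fun {a b} ha hb g hg => by
        have h1 := ha g hg
        have h2 := hb g hg
        simp only [Pi.add_apply, add_mul, Finset.sum_add_distrib]
        rw [h1, h2, add_zero]
      zero_mem' := fun g _ => by simp
      smul_mem' := fun r a ha g hg => by
        have h1 := ha g hg
        simp only [Pi.smul_apply, smul_eq_mul, mul_assoc]
        rw [← Finset.mul_sum, h1, mul_zero] }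
  have hCmem : ∀ v : m × m → ℂ, v ∈ C ↔ ∀ g ∈ G, ∑ k, v k * g k.1 k.2 = 0 := fun _ => Iff.rfl
  have hγC : γ ∈ C := by
    rw [hCmem]
    intro g hg
    rw [← hφ g]
    exact LinearMap.mem_ker.1 (hφS (Submodule.subset_span hg))
  have hCσ : ∀ (σ : ℂ ≃+* ℂ), ∀ v ∈ C, (fun i => σ (v i)) ∈ C := by
    intro σ v hv
    rw [hCmem] at hv ⊢
    intro g hg
    have h1 := hv (g.map σ.symm) (hσ σ.symm g hg)
    have h2 := congrArg σ h1
    rw [map_sum, map_zero] at h2
    rw [← h2]
    refine Finset.sum_congr rfl fun k _ => ?_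
    rw [map_mul, Matrix.map_apply, RingEquiv.apply_symm_apply]
  have hspan := Pool.Agent.W437.HD.span_rational C hCσ
  -- the functional given by `B` vanishes on rational vectors of `C`
  have hrat : ∀ c : m × m → ℚ, (fun k => (c k : ℂ)) ∈ C → ∑ k : m × m, (c k : ℂ) * B k.1 k.2 = 0 := by
    intro c hc
    rw [hCmem] at hc
    have hn : ∀ n : ℕ, ∑ k : m × m, (if wt k.2 = n then (c k : ℂ) * B k.1 k.2 else 0) = 0 := by
      intro n
      have h1 := hB n (fun i j => if wt j = n then c (i, j) else 0) (by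
        intro i j hij
        by_contra hne
        exact hij (if_neg hne)) (by
        intro g hg
        have h2 := part wt G hμ (fun k => (c k : ℂ)) hc n g hg
        rw [Fintype.sum_prod_type] at h2
        refine Eq.trans (Finset.sum_congr rfl fun i _ => Finset.sum_congr rfl fun j _ => ?_) h2
        by_cases hj : wt j = n
        · simp [hj]
        · simp [hj])
      rw [Fintype.sum_prod_type]
      refine Eq.trans (Finset.sum_congr rfl fun i _ => Finset.sum_congr rfl fun j _ => ?_) h1
      by_cases hj : wt j = n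
      · simp [hj]
      · simp [hj]
    rw [← Finset.sum_fiberwise_of_maps_to (s := (Finset.univ : Finset (m × m)))
      (t := (Finset.univ : Finset (m × m)).image (fun k => wt k.2)) (g := fun k => wt k.2)
      (fun k hk => Finset.mem_image_of_mem _ hk)]
    refine Finset.sum_eq_zero fun n _ => ?_
    rw [Finset.sum_filter]
    exact hn n
  let ψ : (m × m → ℂ) →ₗ[ℂ] ℂ :=
    { toFun := fun v => ∑ k, v k * B k.1 k.2
      map_add' := fun a b => by
        simp only [Pi.add_apply, add_mul, Finset.sum_add_distrib]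
      map_smul' := fun r a => by
        simp only [Pi.smul_apply, smul_eq_mul, mul_assoc, RingHom.id_apply, Finset.mul_sum] }
  have hψ : C ≤ LinearMap.ker ψ := by
    rw [hspan, Submodule.span_le]
    rintro w ⟨hw, u, rfl⟩
    exact LinearMap.mem_ker.2 (hrat u hw)
  have h0 : ψ γ = 0 := LinearMap.mem_ker.1 (hψ hγC)
  apply hφB
  rw [hφ B]
  exact h0

end Pool.Agent.W351.MTH
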